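import Pool.Agent.Helper12.ET.Spec

set_option autoImplicit false

namespace Pool.Agent.Helper71.ET.BH

open Pool.Agent.Helper12.ET

theorem exists_perm {k : ℕ} (u w : Fin k → ℕ)
    (h : Multiset.map u Finset.univ.val = Multiset.map w Finset.univ.val) :
    ∃ σ : Equiv.Perm (Fin k), u = w ∘ σ := by
  have h1 : ∀ f : Fin k → ℕ, (List.ofFn (f ∘ Tuple.sort f)).Perm (List.ofFn f) := by
    intro f
    exact (Tuple.sort f).ofFn_comp_perm f
  have h2 : (List.ofFn u).Perm (List.ofFn w) := by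
    rw [Fin.univ_val_map, Fin.univ_val_map] at h
    exact Multiset.coe_eq_coe.1 h
  have h3 : (List.ofFn (u ∘ Tuple.sort u)).Perm (List.ofFn (w ∘ Tuple.sort w)) :=
    ((h1 u).trans h2).trans (h1 w).symm
  have h4 : List.ofFn (u ∘ Tuple.sort u) = List.ofFn (w ∘ Tuple.sort w) :=
    h3.eq_of_sortedLE (Tuple.monotone_sort u).sortedLE_ofFn (Tuple.monotone_sort w).sortedLE_ofFn
  have h5 := List.ofFn_injective h4
  refine ⟨(Tuple.sort u).symm.trans (Tuple.sort w), ?_⟩
  funext i
  have h6 := congrFun h5 ((Tuple.sort u).symm i)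
  simpa using h6

theorem main : S_BH := by
  intro k B hB d
  set S : Set ((Fin k → ℕ) × (Fin k → ℕ)) := {p : (Fin k → ℕ) × (Fin k → ℕ) |
    (∀ i, p.1 i ∈ B) ∧ (∀ i, p.2 i ∈ B) ∧ (∀ i j, p.1 i ≠ p.2 j) ∧
    (∑ i, (p.1 i : ℤ)) - ∑ i, (p.2 i : ℤ) = d} with hS
  rcases S.eq_empty_or_nonempty with h0 | ⟨⟨u0, v0⟩, hu0, hv0, hd0, hs0⟩
  · rw [h0]; simp
  have key : S ⊆ Set.range (fun στ : Equiv.Perm (Fin k) × Equiv.Perm (Fin k) =>
      ((u0 ∘ στ.1, v0 ∘ στ.2) : (Fin k → ℕ) × (Fin k → ℕ))) := by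
    rintro ⟨u, v⟩ ⟨hu, hv, hd, hs⟩
    simp only at hu hv hd hs hu0 hv0 hd0 hs0
    set U : Multiset ℕ := Multiset.map u Finset.univ.val with hU
    set V : Multiset ℕ := Multiset.map v Finset.univ.val with hV
    set U0 : Multiset ℕ := Multiset.map u0 Finset.univ.val with hU0
    set V0 : Multiset ℕ := Multiset.map v0 Finset.univ.val with hV0
    have hsum : ∀ w : Fin k → ℕ, (Multiset.map w Finset.univ.val).sum = ∑ i, w i := fun w => rfl
    have hmem : ∀ (w : Fin k → ℕ) (x : ℕ), x ∈ Multiset.map w Finset.univ.val → ∃ i, w i = x := by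
      intro w x hx
      obtain ⟨i, -, hi⟩ := Multiset.mem_map.1 hx
      exact ⟨i, hi⟩
    have hcard : ∀ w : Fin k → ℕ, Multiset.card (Multiset.map w Finset.univ.val) = k := by
      intro w; simp
    have hst : U + V0 = U0 + V := by
      refine hB _ _ ?_ ?_ ?_ ?_ ?_
      · rw [Multiset.card_add, hcard, hcard]; ring
      · rw [Multiset.card_add, hcard, hcard]; ring
      · intro x hx
        rcases Multiset.mem_add.1 hx with hx | hx
        · obtain ⟨i, rfl⟩ := hmem _ _ hx; exact hu i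
        · obtain ⟨i, rfl⟩ := hmem _ _ hx; exact hv0 i
      · intro x hx
        rcases Multiset.mem_add.1 hx with hx | hx
        · obtain ⟨i, rfl⟩ := hmem _ _ hx; exact hu0 i
        · obtain ⟨i, rfl⟩ := hmem _ _ hx; exact hv i
      · rw [Multiset.sum_add, Multiset.sum_add, hsum, hsum, hsum, hsum]
        have : ((∑ i, u i + ∑ i, v0 i : ℕ) : ℤ) = ((∑ i, u0 i + ∑ i, v i : ℕ) : ℤ) := by
          push_cast; linarith
        exact_mod_cast this
    have hdis : Disjoint U V := by
      rw [Multiset.disjoint_left]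
      intro x hx hx'
      obtain ⟨i, hi⟩ := hmem _ _ hx
      obtain ⟨j, hj⟩ := hmem _ _ hx'
      exact hd i j (hi.trans hj.symm)
    have hle : U ≤ U0 := by
      have h1 : U ≤ U0 + V := hst ▸ Multiset.le_add_right U V0
      rw [Multiset.le_iff_count] at h1 ⊢
      intro x
      have h2 := h1 x
      rw [Multiset.count_add] at h2
      by_cases hx : x ∈ U
      · have : x ∉ V := fun hx' => (Multiset.disjoint_left.1 hdis) hx hx'
        rw [Multiset.count_eq_zero_of_notMem this] at h2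
        simpa using h2
      · rw [Multiset.count_eq_zero_of_notMem hx]; exact Nat.zero_le _
    have hUU : U = U0 := Multiset.eq_of_le_of_card_le hle (by rw [hcard, hcard])
    have hVV : V = V0 := by
      rw [hUU] at hst
      exact (add_left_cancel hst).symm
    obtain ⟨σ, hσ⟩ := exists_perm u u0 hUU
    obtain ⟨τ, hτ⟩ := exists_perm v v0 hVV
    exact ⟨(σ, τ), by rw [hσ, hτ]⟩
  refine (Set.encard_le_encard key).trans ?_
  have h2 : (Set.range (fun στ : Equiv.Perm (Fin k) × Equiv.Perm (Fin k) =>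
      ((u0 ∘ στ.1, v0 ∘ στ.2) : (Fin k → ℕ) × (Fin k → ℕ)))).encard
      ≤ (Set.univ : Set (Equiv.Perm (Fin k) × Equiv.Perm (Fin k))).encard := by
    rw [← Set.image_univ]
    exact Set.encard_image_le _ _
  refine h2.trans ?_
  rw [Set.encard_univ, ENat.card_eq_coe_fintype_card, Fintype.card_prod, Fintype.card_perm,
    Fintype.card_fin, ← sq]

end Pool.Agent.Helper71.ET.BH
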